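import Pool.Agent.Y993.HP.Stm

set_option autoImplicit false

namespace Pool.Agent.Y486.HP

open Finset Pool.Agent.Y993.HP

lemma Ex_sum {Ω ι : Type} [Fintype Ω] (s : Finset ι) (F : ι → Ω → ℝ) :
    Ex (fun ω => ∑ i ∈ s, F i ω) = ∑ i ∈ s, Ex (F i) := by
  unfold Ex
  rw [Finset.sum_comm, Finset.sum_div]

lemma Ex_mono {Ω : Type} [Fintype Ω] {F G : Ω → ℝ} (h : ∀ ω, F ω ≤ G ω) : Ex F ≤ Ex G := by
  unfold Ex
  apply div_le_div_of_nonneg_right (Finset.sum_le_sum (fun ω _ => h ω)) (Nat.cast_nonneg _)

lemma PB_nonneg {d n N : ℕ} (I : Fin d → Finset (Fin N)) (B : Finset (Pt d n)) : 0 ≤ PB I B := by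
  unfold PB sd
  exact Finset.prod_nonneg (fun i _ => pow_nonneg (by positivity) _)

open Classical in
lemma momA (h1 : S_PROB) (h2 : S_ADD) (k n N : ℕ) (C : ℝ) (hC : 0 ≤ C)
    (A : Finset (Pt (k + 1) n)) (I : Fin (k + 1) → Finset (Fin N)) (hn : 1 ≤ n) (hN : 0 < N)
    (hA : IsPerm A) (hI : ∀ i, sd I i * mm k n ≤ C) (j : ℕ) :
    ∀ B : Finset (Pt (k + 1) n), B ⊆ A →
      Ex (fun u : Lab (k + 1) n N =>
        if B ⊆ pts A I u then ((pts A I u).card : ℝ) ^ j else 0) ≤
      (∏ a ∈ range j, ((B.card : ℝ) + a + C) ^ (k + 1)) * PB I B := by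
  induction j with
  | zero =>
    intro B hB
    have h3 := h1 (k + 1) n N A B I hN hB
    simp only [pow_zero, Finset.range_zero, Finset.prod_empty, one_mul]
    rw [← h3]
    unfold Pr
    apply le_of_eq
    apply congrArg
    funext u
    congr
  | succ j ih =>
    intro B hB
    have hpt : ∀ u : Lab (k + 1) n N,
        (if B ⊆ pts A I u then ((pts A I u).card : ℝ) ^ (j + 1) else 0) =
        ∑ q ∈ A, (if insert q B ⊆ pts A I u then ((pts A I u).card : ℝ) ^ j else 0) := by
      intro u
      by_cases h : B ⊆ pts A I u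
      · rw [if_pos h]
        have h4 : ∀ q ∈ A, (if insert q B ⊆ pts A I u then ((pts A I u).card : ℝ) ^ j else 0) =
            if q ∈ pts A I u then ((pts A I u).card : ℝ) ^ j else 0 := by
          intro q _
          by_cases hq : q ∈ pts A I u
          · rw [if_pos hq, if_pos (Finset.insert_subset hq h)]
          · rw [if_neg hq, if_neg]
            intro h5
            exact hq (h5 (Finset.mem_insert_self q B))
        rw [Finset.sum_congr rfl h4, ← Finset.sum_filter, Finset.sum_const, nsmul_eq_mul]
        have h5 : A.filter (fun q => q ∈ pts A I u) = pts A I u := by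
          ext q
          rw [Finset.mem_filter]
          constructor
          · exact fun h => h.2
          · intro h6
            refine ⟨?_, h6⟩
            unfold pts at h6
            exact (Finset.mem_filter.mp h6).1
        rw [h5, pow_succ]
        ring
      · rw [if_neg h]
        symm
        apply Finset.sum_eq_zero
        intro q _
        rw [if_neg]
        intro h5
        exact h ((Finset.subset_insert q B).trans h5)
    have h3 : Ex (fun u : Lab (k + 1) n N =>
        if B ⊆ pts A I u then ((pts A I u).card : ℝ) ^ (j + 1) else 0) =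
        ∑ q ∈ A, Ex (fun u : Lab (k + 1) n N =>
          if insert q B ⊆ pts A I u then ((pts A I u).card : ℝ) ^ j else 0) := by
      rw [← Ex_sum]
      congr 1
      funext u
      exact hpt u
    rw [h3]
    have h4 : ∀ q ∈ A, Ex (fun u : Lab (k + 1) n N =>
        if insert q B ⊆ pts A I u then ((pts A I u).card : ℝ) ^ j else 0) ≤
        (∏ a ∈ range j, ((B.card : ℝ) + (a + 1 : ℕ) + C) ^ (k + 1)) * PB I (insert q B) := by
      intro q hq
      refine (ih (insert q B) (Finset.insert_subset hq hB)).trans ?_
      apply mul_le_mul_of_nonneg_right _ (PB_nonneg I _)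
      apply Finset.prod_le_prod
      · intro a _
        positivity
      · intro a _
        have h5 : ((insert q B).card : ℝ) ≤ (B.card : ℝ) + 1 := by
          exact_mod_cast Finset.card_insert_le q B
        have h6 : ((insert q B).card : ℝ) + a + C ≤ (B.card : ℝ) + (a + 1 : ℕ) + C := by
          push_cast
          linarith
        exact pow_le_pow_left₀ (by positivity) h6 _
    refine (Finset.sum_le_sum h4).trans ?_
    rw [← Finset.mul_sum, Finset.prod_range_succ']
    have h7 := h2 k n N C A B I hn hN hC hA hB hI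
    have h8 : 0 ≤ ∏ a ∈ range j, ((B.card : ℝ) + (a + 1 : ℕ) + C) ^ (k + 1) :=
      Finset.prod_nonneg (fun a _ => by positivity)
    refine (mul_le_mul_of_nonneg_left h7 h8).trans (le_of_eq ?_)
    simp only [Nat.cast_zero, add_zero]
    ring

theorem ng1 (h1 : S_PROB) (h2 : S_ADD) (h3 : S_PAIR) : S_NG := by
  classical
  intro k j C hk hC
  obtain ⟨K, hK0, hK⟩ := h3 k C hk hC
  refine ⟨(∏ a ∈ range j, ((2 : ℝ) + a + C) ^ (k + 1)) * K, ?_, ?_⟩
  · apply mul_nonneg _ hK0
    exact Finset.prod_nonneg (fun a _ => by positivity)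
  · intro n N A I hn hN hA hI
    set Z := (A ×ˢ A).filter (fun z => z.1 ≠ z.2 ∧ ∃ i, z.1 i = z.2 i) with hZ
    have hpt : ∀ u : Lab (k + 1) n N,
        (if Gen (pts A I u) then (0 : ℝ) else ((pts A I u).card : ℝ) ^ j) ≤
        ∑ z ∈ Z, (if ({z.1, z.2} : Finset (Pt (k + 1) n)) ⊆ pts A I u
          then ((pts A I u).card : ℝ) ^ j else 0) := by
      intro u
      by_cases hg : Gen (pts A I u)
      · rw [if_pos hg]
        apply Finset.sum_nonneg
        intro z _
        split_ifs <;> positivity
      · rw [if_neg hg]
        unfold Gen at hg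
        push Not at hg
        obtain ⟨p, hp, q, hq, hpq, i, hi⟩ := hg
        have hpA : p ∈ A := by unfold pts at hp; exact (Finset.mem_filter.mp hp).1
        have hqA : q ∈ A := by unfold pts at hq; exact (Finset.mem_filter.mp hq).1
        have hz : (p, q) ∈ Z := by
          rw [hZ, Finset.mem_filter, Finset.mem_product]
          exact ⟨⟨hpA, hqA⟩, hpq, i, hi⟩
        have h5 : ({(p, q).1, (p, q).2} : Finset (Pt (k + 1) n)) ⊆ pts A I u := by
          intro x hx
          simp only [Finset.mem_insert, Finset.mem_singleton] at hx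
          rcases hx with rfl | rfl
          · exact hp
          · exact hq
        refine le_trans (le_of_eq ?_) (Finset.single_le_sum (f := fun z : Pt (k + 1) n × Pt (k + 1) n =>
          (if ({z.1, z.2} : Finset (Pt (k + 1) n)) ⊆ pts A I u
            then ((pts A I u).card : ℝ) ^ j else 0)) ?_ hz)
        · rw [if_pos h5]
        · intro z _
          split_ifs <;> positivity
    have h4 := Ex_mono hpt
    rw [Ex_sum] at h4
    refine le_trans (le_trans (le_of_eq ?_) h4) ?_
    · congr
    · have h5 : ∀ z ∈ Z, Ex (fun u : Lab (k + 1) n N =>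
          if ({z.1, z.2} : Finset (Pt (k + 1) n)) ⊆ pts A I u
            then ((pts A I u).card : ℝ) ^ j else 0) ≤
          (∏ a ∈ range j, ((2 : ℝ) + a + C) ^ (k + 1)) * PB I {z.1, z.2} := by
        intro z hz
        rw [hZ, Finset.mem_filter, Finset.mem_product] at hz
        have hsub : ({z.1, z.2} : Finset (Pt (k + 1) n)) ⊆ A := by
          intro x hx
          simp only [Finset.mem_insert, Finset.mem_singleton] at hx
          rcases hx with rfl | rfl
          · exact hz.1.1
          · exact hz.1.2
        refine (momA h1 h2 k n N C hC A I hn hN hA hI j _ hsub).trans ?_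
        apply mul_le_mul_of_nonneg_right _ (PB_nonneg I _)
        apply Finset.prod_le_prod
        · intro a _
          positivity
        · intro a _
          have h6 : ((({z.1, z.2} : Finset (Pt (k + 1) n)).card : ℕ) : ℝ) ≤ 2 := by
            exact_mod_cast Finset.card_le_two
          exact pow_le_pow_left₀ (by positivity) (by linarith) _
      refine (Finset.sum_le_sum h5).trans ?_
      rw [← Finset.mul_sum, mul_assoc]
      apply mul_le_mul_of_nonneg_left _ (Finset.prod_nonneg (fun a _ => by positivity))
      refine le_trans (le_of_eq ?_) (hK n N A I hn hN hA hI)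
      congr

end Pool.Agent.Y486.HP
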